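import Pool.Agent.Q94.QInner

/-!
# An inner symmetrization of a function which is not inner

The slice regular function `f(q) = ∑ q^(n+1) J^n / n!`, where `J` is an imaginary unit, is bounded,
its symmetrization is `q²`, but `|f(-r J)| = r e^r > 1` for `r` close to `1`.
-/

open scoped Quaternion
open Q94.QI

theorem Pool.Agent.Results.MP_3b44a3_an.NotInner.result :
    ∃ (a : ℕ → ℍ[ℝ]) (f fs : ℍ[ℝ] → ℍ[ℝ]),
      MemH2 f a ∧ (∃ C : ℝ, ∀ q : ℍ[ℝ], ‖q‖ < 1 → ‖f q‖ ≤ C) ∧
      HasSeries fs (starMul a (conjCoeff a)) ∧ HasSeries fs (starMul (conjCoeff a) a) ∧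
      IsInner fs ∧ ¬ IsInner f := by
  refine ⟨a, f, fun q => q ^ 2, ⟨f_regular, f_series, summable_a_sq⟩, f_bounded, ?_, ?_,
    sq_inner, f_not_inner⟩
  · rw [a_star_conj]; exact sq_series
  · rw [conj_star_a]; exact sq_series
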